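import Pool.Agent.Y679.Cr.Dens

/-! **One of finitely many properties: from the ordering by the height to the ordering by the
conductor, uniformly in the factor.** -/

set_option autoImplicit false

namespace Pool.Agent.Q323.CO

open Filter Finset Topology Pool.Agent.Y679.Cr Pool.Agent.W307.RT

variable {P : ℤ × ℤ → Prop}

theorem posL (hP : Good P) {ι : Type} {L : Finset ι} {T : ι → ℤ × ℤ → Prop}
    (hT : ∃ c : ℝ, 0 < c ∧ ∃ H0 : ℕ, ∀ H : ℕ, H0 ≤ H → ∃ d ∈ L, ∃ S : Finset (ℤ × ℤ),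
      (S : Set (ℤ × ℤ)) ⊆ {k | k ∈ Cv 2 H ∧ T d k} ∧ c * ((Cv 2 H).card : ℝ) ≤ (S.card : ℝ)) :
    ∃ δ : ℝ, 0 < δ ∧ ∃ Z0 : ℕ, ∀ Z : ℕ, Z0 ≤ Z → ∃ d ∈ L, ∀ f : ℤ × ℤ → ℕ, Bdd f →
      (0 : ℝ) < ((Gm P f Z).ncard : ℝ) ∧
      δ * ((Gm P f Z).ncard : ℝ) ≤ ((Gm P f Z ∩ {k | T d k}).ncard : ℝ) := by
  obtain ⟨c, hc, H0, h⟩ := hT
  obtain ⟨C, Z1, hC, hup⟩ := Gm_up hP
  obtain ⟨c', Z2, hc', hlo⟩ := low2 hP.low
  obtain ⟨c'', Z3, hc'', hge⟩ := Gm_ge hP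
  refine ⟨c * c' / C, by positivity, max (max Z1 Z2) (max Z3 (62208 * (H0 + 1))), fun Z hZ => ?_⟩
  have h1 : Z1 ≤ Z := le_trans (le_trans (le_max_left _ _) (le_max_left _ _)) hZ
  have h2 : Z2 ≤ Z := le_trans (le_trans (le_max_right _ _) (le_max_left _ _)) hZ
  have h3' : Z3 ≤ Z := le_trans (le_trans (le_max_left _ _) (le_max_right _ _)) hZ
  have h3 : 62208 * (H0 + 1) ≤ Z :=
    le_trans (le_trans (le_max_right _ _) (le_max_right _ _)) hZ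
  have h5 : H0 ≤ (Z / 62208) ^ 2 := by
    have h6 : H0 + 1 ≤ Z / 62208 := by
      rw [Nat.le_div_iff_mul_le (by norm_num)]
      linarith
    nlinarith
  obtain ⟨d, hd, S, hS, hcard⟩ := h _ h5
  refine ⟨d, hd, fun f hf => ⟨?_, ?_⟩⟩
  · have hZ0 : 0 < Z := by linarith
    have hZr : (0 : ℝ) < (Z : ℝ) := by exact_mod_cast hZ0
    have h6 : (0 : ℝ) < (Z : ℝ) ^ ((2 : ℝ) / 3) := Real.rpow_pos_of_pos hZr _
    exact lt_of_lt_of_le (mul_pos hc'' h6) (hge f hf Z h3')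
  · have h7 : (S.card : ℝ) ≤ ((Gm P f Z ∩ {k | T d k}).ncard : ℝ) := by
      rw [← Set.ncard_coe_finset]
      refine Nat.cast_le.2 (Set.ncard_le_ncard (fun k hk => ?_)
        ((Gm_fin hP hf Z).subset Set.inter_subset_left))
      have h8 := hS hk
      exact ⟨sub hP.ok hP.cv (fun c _ => (hf c).2) Z (mem_coe.2 h8.1), h8.2⟩
    refine le_trans ?_ h7
    refine le_trans ?_ hcard
    have h9 := hlo Z h2
    have h10 := hup f hf Z h1
    calc c * c' / C * ((Gm P f Z).ncard : ℝ) ≤ c * c' / C * (C * (Z : ℝ) ^ ((2 : ℝ) / 3)) :=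
          mul_le_mul_of_nonneg_left h10 (by positivity)
      _ = c * (c' * (Z : ℝ) ^ ((2 : ℝ) / 3)) := by
          field_simp
      _ ≤ _ := mul_le_mul_of_nonneg_left h9 hc.le

/-- one of finitely many for arbitrarily large sizes -/
lemma pack {ι : Type} (L : Finset ι) (p : ι → ℕ → Prop)
    (h : ∀ᶠ Z : ℕ in atTop, ∃ d ∈ L, p d Z) : ∃ d ∈ L, ∃ᶠ Z : ℕ in atTop, p d Z := by
  by_contra hcon
  push Not at hcon
  have h1 : ∀ᶠ Z : ℕ in atTop, ∀ d ∈ L, ¬ p d Z := by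
    rw [Filter.eventually_all_finset]
    intro d hd
    exact hcon d hd
  obtain ⟨Z, hZ1, hZ2⟩ := (h.and h1).exists
  obtain ⟨d, hd, hle⟩ := hZ1
  exact hZ2 d hd hle

end Pool.Agent.Q323.CO
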