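import Mathlib

/-! **Proportions of tuples.** -/

set_option autoImplicit false

namespace Pool.Agent.Q323.CO

open Filter Finset Topology

lemma nc {α : Type} {g : ℕ} (A : Fin g → Set α) (hA : ∀ i, (A i).Finite) :
    {c : Fin g → α | ∀ i, c i ∈ A i}.ncard = ∏ i, (A i).ncard := by
  classical
  have e : {c : Fin g → α | ∀ i, c i ∈ A i} =
      ((Fintype.piFinset fun i => (hA i).toFinset : Finset (Fin g → α)) : Set (Fin g → α)) := by
    ext c
    rw [mem_coe, Fintype.mem_piFinset]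
    exact forall_congr' fun i => (Set.Finite.mem_toFinset _).symm
  rw [e, Set.ncard_coe_finset, Fintype.card_piFinset]
  exact prod_congr rfl fun i _ => (Set.ncard_eq_toFinset_card _ (hA i)).symm

lemma fin {α : Type} {g : ℕ} {F : Set α} (hF : F.Finite) :
    {c : Fin g → α | ∀ i, c i ∈ F}.Finite := by
  have := Set.Finite.pi (fun _ : Fin g => hF)
  refine this.subset fun c hc => ?_
  rw [Set.mem_univ_pi]
  exact hc

/-- from the proportions in a set to the proportion among the tuples -/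
theorem tup {α : Type} {g : ℕ} {F : Set α} (hF : F.Finite) (T : Fin g → Set α) (δ : Fin g → ℝ)
    (hδ : ∀ i, 0 ≤ δ i) (h0 : (0 : ℝ) < (F.ncard : ℝ))
    (h : ∀ i, δ i * (F.ncard : ℝ) ≤ ((F ∩ T i).ncard : ℝ)) (S : Set (Fin g → α))
    (hS : ∀ c : Fin g → α, (∀ i, c i ∈ F ∧ c i ∈ T i) → c ∈ S) :
    ∏ i, δ i ≤ (({c : Fin g → α | ∀ i, c i ∈ F} ∩ S).ncard : ℝ) /
      ({c : Fin g → α | ∀ i, c i ∈ F}).ncard := by
  have e1 : (({c : Fin g → α | ∀ i, c i ∈ F}).ncard : ℝ) = ∏ _i : Fin g, (F.ncard : ℝ) := by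
    rw [nc (fun _ => F) (fun _ => hF)]
    push_cast
    rfl
  have e2 : (0 : ℝ) < ∏ _i : Fin g, (F.ncard : ℝ) := prod_pos fun i _ => h0
  rw [e1, le_div_iff₀ e2, ← prod_mul_distrib]
  calc ∏ i, δ i * (F.ncard : ℝ) ≤ ∏ i, ((F ∩ T i).ncard : ℝ) :=
        prod_le_prod (fun i _ => mul_nonneg (hδ i) h0.le) fun i _ => h i
    _ = (({c : Fin g → α | ∀ i, c i ∈ F ∩ T i}.ncard : ℕ) : ℝ) := by
        rw [nc (fun i => F ∩ T i) (fun i => hF.inter_of_left _)]
        push_cast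
        rfl
    _ ≤ _ := by
        refine Nat.cast_le.2 (Set.ncard_le_ncard (fun c hc => ⟨fun i => (hc i).1, hS c hc⟩)
          ((fin hF).inter_of_left _))

end Pool.Agent.Q323.CO
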